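import Pool.Agent.H.MP_75f5df_co.B

namespace Pool.Agent.Results.MP_75f5df_co.Never

open SimpleGraph MeasureTheory Cardinal

universe u

/-- `S` induces a connected subgraph without a cut vertex of its own. -/
def NoCut {V : Type u} (G : SimpleGraph V) (S : Set V) : Prop :=
  (G.induce S).Connected ∧ ∀ v ∈ S, (G.induce (S \ {v})).Preconnected

/-- `G` is the tree-like graph `T_{m,n}`. -/
def TreeLike {V : Type u} (G : SimpleGraph V) (m n : Cardinal.{u}) : Prop :=
  G.Connected ∧ (∀ B : Set V, Maximal (NoCut G) B → G.IsClique B ∧ #B = n) ∧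
    ∀ v : V, #{B : Set V // Maximal (NoCut G) B ∧ v ∈ B} = m

/-- Topology of pointwise convergence on the automorphism group (vertex set discrete). -/
def ptwise {V : Type u} (G : SimpleGraph V) : TopologicalSpace (G ≃g G) :=
  TopologicalSpace.induced (fun g : G ≃g G => (g : V → V))
    (@Pi.topologicalSpace V (fun _ => V) (fun _ => ⊥))

/-- Amenability of a topological group. -/
def Amenable (Γ : Type u) [Group Γ] [TopologicalSpace Γ] : Prop :=
  ∀ (X : Type u) [TopologicalSpace X] [CompactSpace X] [T2Space X] [Nonempty X]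
    [MulAction Γ X] [ContinuousSMul Γ X],
    ∃ μ : @Measure X (borel X), IsProbabilityMeasure μ ∧
      ∀ (g : Γ) (s : Set X), @MeasurableSet X (borel X) s → μ ((fun x => g • x) ⁻¹' s) = μ s

open Pool.Agent.H.MP_75f5df_co

def XS {V : Type u} (G : SimpleGraph V) : Set (V × V → Bool) :=
  {o | (∀ u v w, G.Adj u v → G.Adj u w → v ≠ w → o (u, v) = false ∨ o (u, w) = false) ∧
    ∀ u p w, G.Adj p u → G.Adj p w → u ≠ w → ¬ G.Adj u w → o (u, p) = true ∨ o (w, p) = true}

theorem XS_closed {V : Type u} (G : SimpleGraph V) : IsClosed (XS G) := by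
  have c : ∀ (z : V × V) (b : Bool), IsClosed {o : V × V → Bool | o z = b} := fun z b =>
    isClosed_eq (continuous_apply z) continuous_const
  have : XS G = (⋂ u, ⋂ v, ⋂ w, ⋂ (_ : G.Adj u v), ⋂ (_ : G.Adj u w), ⋂ (_ : v ≠ w),
      ({o : V × V → Bool | o (u, v) = false} ∪ {o | o (u, w) = false})) ∩
      (⋂ u, ⋂ p, ⋂ w, ⋂ (_ : G.Adj p u), ⋂ (_ : G.Adj p w), ⋂ (_ : u ≠ w),
        ⋂ (_ : ¬ G.Adj u w),
      ({o : V × V → Bool | o (u, p) = true} ∪ {o | o (w, p) = true})) := by
    ext o
    simp only [XS, Set.mem_ofPred_eq, Set.mem_inter_iff, Set.mem_iInter, Set.mem_union]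
  rw [this]
  refine IsClosed.inter ?_ ?_
  · repeat refine isClosed_iInter (fun _ => ?_)
    exact (c _ _).union (c _ _)
  · repeat refine isClosed_iInter (fun _ => ?_)
    exact (c _ _).union (c _ _)

theorem XS_nonempty {V : Type u} {G : SimpleGraph V} (hc : G.Connected) (hK : Cyc G) :
    (XS G).Nonempty := by
  classical
  obtain ⟨x⟩ := hc.nonempty
  refine ⟨fun z => decide (∀ W : G.Walk z.1 x, z.2 ∈ W.support), ?_, ?_⟩
  · intro u v w hv hw hne
    by_contra hcon
    simp only [decide_eq_false_iff_not, not_or, not_not] at hcon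
    obtain ⟨h1, h2⟩ := hcon
    have key : ∀ a b, G.Adj u a → G.Adj u b → a ≠ b → (∀ W : G.Walk u x, a ∈ W.support) →
        G.dist a x < G.dist b x := by
      intro a b ha hb hab h
      obtain ⟨P, hP⟩ := hc.exists_walk_length_eq_dist b x
      have := h (Walk.cons hb P)
      simp only [Walk.support_cons, List.mem_cons] at this
      rcases this with h3 | h3
      · exact absurd h3 ha.ne'
      · by_contra hlt
        exact hab ((short_mem P hP h3).2 (by omega))
    have := key v w hv hw hne h1
    have := key w v hw hv hne.symm h2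
    omega
  · intro u p w hu hw hne hn
    by_contra hcon
    simp only [decide_eq_true_eq, not_or, not_forall] at hcon
    obtain ⟨⟨P, hP⟩, ⟨Q, hQ⟩⟩ := hcon
    refine hn (hK p u w (P.append Q.reverse) hu hw hne ?_)
    simp [Walk.mem_support_append_iff, hP, hQ]

def act {V : Type u} (G : SimpleGraph V) : MulAction (G ≃g G) (XS G) where
  smul g o := ⟨fun z => o.1 (g.symm z.1, g.symm z.2), by
    refine ⟨fun u v w h1 h2 h3 => o.2.1 _ _ _ ?_ ?_ ?_, fun u p w h1 h2 h3 h4 =>
      o.2.2 _ _ _ ?_ ?_ ?_ ?_⟩
    · exact g.symm.map_adj_iff.2 h1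
    · exact g.symm.map_adj_iff.2 h2
    · exact fun e => h3 (g.symm.injective e)
    · exact g.symm.map_adj_iff.2 h1
    · exact g.symm.map_adj_iff.2 h2
    · exact fun e => h3 (g.symm.injective e)
    · exact fun e => h4 (g.symm.map_adj_iff.1 e)⟩
  one_smul _ := rfl
  mul_smul _ _ _ := rfl

theorem act_cont {V : Type u} (G : SimpleGraph V) :
    @ContinuousSMul (G ≃g G) (XS G) (act G).toSMul (ptwise G) _ := by
  letI := ptwise G
  letI := act G
  letI : TopologicalSpace V := ⊥
  haveI : DiscreteTopology V := ⟨rfl⟩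
  have c0 : ∀ v : V, Continuous (fun g : G ≃g G => g v) := fun v =>
    (continuous_apply v).comp continuous_induced_dom
  have c1 : ∀ v : V, Continuous (fun g : G ≃g G => g.symm v) := by
    intro v
    rw [continuous_discrete_rng]
    intro w
    have : (fun g : G ≃g G => g.symm v) ⁻¹' {w} = (fun g : G ≃g G => g w) ⁻¹' {v} := by
      ext g
      simp only [Set.mem_preimage, Set.mem_singleton_iff]
      constructor
      · rintro rfl; simp
      · rintro rfl; simp
    rw [this]
    exact (isOpen_discrete _).preimage (c0 w)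
  have c2 : Continuous (fun p : (V × V → Bool) × (V × V) => p.1 p.2) :=
    continuous_prod_of_discrete_right.2 (fun z => continuous_apply z)
  refine ⟨Continuous.subtype_mk (continuous_pi fun z => ?_) _⟩
  exact c2.comp ((continuous_subtype_val.comp continuous_snd).prodMk
    (((c1 z.1).comp continuous_fst).prodMk ((c1 z.2).comp continuous_fst)))

theorem result {V : Type u} (G : SimpleGraph V) (m n : Cardinal.{u})
    (hm : 2 ≤ m) (_hm' : m ≤ ℵ₀) (hn : 2 ≤ n) (_hn' : n ≤ ℵ₀) (hinf : m = ℵ₀ ∨ n = ℵ₀)
    (hG : TreeLike G m n) : ¬ @Amenable (G ≃g G) _ (ptwise G) := by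
  classical
  intro hA
  obtain ⟨hc, hB, hv⟩ := hG
  obtain ⟨k, hk⟩ : ∃ k, n = k + 1 := by
    obtain ⟨k, hk⟩ := exists_add_of_le (le_trans one_le_two hn)
    exact ⟨k, by rw [hk, add_comm]⟩
  have hK : Cyc G := cyc_of (fun B h => (hB B h).1)
  have hl := coords (G := G) m k (fun B h => hk ▸ hB B h) hv
  have hk0 : k ≠ 0 := by
    rintro rfl
    rw [hk] at hn
    simp at hn
  haveI : Nonempty k.out := by rwa [← Cardinal.mk_ne_zero_iff, Cardinal.mk_out]
  haveI : Nontrivial m.out := by
    rw [← Cardinal.one_lt_iff_nontrivial, Cardinal.mk_out]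
    exact lt_of_lt_of_le one_lt_two hm
  haveI : Infinite (m.out × k.out) := by
    rcases hinf with h | h
    · haveI : Infinite m.out := by rw [Cardinal.infinite_iff, Cardinal.mk_out, h]
      infer_instance
    · haveI : Infinite k.out := by
        rw [Cardinal.infinite_iff, Cardinal.mk_out]
        by_contra hlt
        have : k + 1 < ℵ₀ := Cardinal.add_lt_aleph0 (not_le.1 hlt) Cardinal.one_lt_aleph0
        rw [← hk, h] at this
        exact lt_irrefl _ this
      infer_instance
  letI := ptwise G
  letI := act G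
  haveI := act_cont G
  haveI : CompactSpace (XS G) := isCompact_iff_compactSpace.1 (XS_closed G).isCompact
  haveI : Nonempty (XS G) := (XS_nonempty hc hK).to_subtype
  obtain ⟨μ, hμ, hinv⟩ := hA (XS G)
  letI : MeasurableSpace (XS G) := borel _
  haveI : BorelSpace (XS G) := ⟨rfl⟩
  let E : V → V → Set (XS G) := fun a b => {o | o.1 (a, b) = true}
  have hE : ∀ a b, MeasurableSet (E a b) := fun a b =>
    (isClosed_eq ((continuous_apply (a, b)).comp continuous_subtype_val)
      continuous_const).measurableSet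
  have hT : ∀ a b a' b', G.Adj a b → G.Adj a' b' → μ (E a b) = μ (E a' b') := by
    intro a b a' b' h h'
    obtain ⟨f, h1, h2⟩ := arc_trans hc hK hl h h'
    rw [← hinv f (E a' b') (hE _ _)]
    congr 1
    ext o
    change o.1 (a, b) = true ↔ o.1 (f.symm a', f.symm b') = true
    rw [← h1, ← h2]
    simp
  obtain ⟨p⟩ := hc.nonempty
  obtain ⟨c, hcc⟩ := hl p
  obtain ⟨i, j, hij⟩ := exists_pair_ne m.out
  obtain ⟨k0⟩ : Nonempty k.out := inferInstance
  set x := c.symm (i, k0) with hx
  set y := c.symm (j, k0) with hy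
  have hxy : x ≠ y := fun e => hij (congrArg Prod.fst (c.symm.injective e))
  have hnadj : ¬ G.Adj x y := fun e => hij (by simpa [hx, hy] using ((hcc x y).1 e).1)
  haveI : Infinite (G.neighborSet p) := Infinite.of_injective _ c.symm.injective
  obtain ⟨z, hz⟩ := Infinite.exists_notMem_finset ({x, y} : Finset (G.neighborSet p))
  simp only [Finset.mem_insert, Finset.mem_singleton, not_or] at hz
  have px : G.Adj p x := x.2
  have py : G.Adj p y := y.2
  have pz : G.Adj p z := z.2
  have dis : ∀ a b : G.neighborSet p, a ≠ b → Disjoint (E p a) (E p b) := by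
    intro a b hab
    rw [Set.disjoint_left]
    intro o h1 h2
    rcases o.2.1 p a b a.2 b.2 (fun e => hab (Subtype.ext e)) with h | h
    · exact absurd (h.symm.trans h1) (by simp)
    · exact absurd (h.symm.trans h2) (by simp)
  have up : μ (E p x) + μ (E p x) + μ (E p x) ≤ 1 := by
    have h1 : μ (E p x ∪ E p y ∪ E p z) = μ (E p x) + μ (E p y) + μ (E p z) := by
      rw [measure_union (Set.disjoint_union_left.2
        ⟨dis x z (Ne.symm hz.1), dis y z (Ne.symm hz.2)⟩) (hE _ _),
        measure_union (dis x y hxy) (hE _ _)]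
    rw [← hT p x p y px py, ← hT p x p z px pz] at h1
    rw [← h1]
    exact prob_le_one
  have lo : 1 ≤ μ (E p x) + μ (E p x) := by
    have h1 : (Set.univ : Set (XS G)) ⊆ E x p ∪ E y p := fun o _ =>
      o.2.2 x p y px py (fun e => hxy (Subtype.ext e)) hnadj
    have h2 := (measure_mono h1).trans (measure_union_le (μ := μ) (E x p) (E y p))
    rwa [measure_univ, ← hT p x x p px px.symm, ← hT p x y p px py.symm] at h2
  have hfin : μ (E p x) ≠ ⊤ := measure_ne_top _ _
  lift μ (E p x) to NNReal using hfin with t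
  norm_cast at up lo
  have up' : (t : ℝ) + t + t ≤ 1 := by exact_mod_cast up
  have lo' : 1 ≤ (t : ℝ) + t := by exact_mod_cast lo
  linarith

end Pool.Agent.Results.MP_75f5df_co.Never
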